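import Mathlib.Topology.Sheaves.Presheaf
import Mathlib.Tactic.Monotonicity.Lemmas
import Mathlib.Data.Int.Star
import Mathlib.Algebra.Order.Ring.Star
import Mathlib.Analysis.Convex.Contractible
import Mathlib.Analysis.CStarAlgebra.Classes
import Mathlib.Analysis.Complex.CoveringMap
import Mathlib.Topology.Homotopy.Lifting
import Mathlib.Analysis.Complex.Tietze
import Mathlib.Combinatorics.SimpleGraph.Diam
import Mathlib.Order.CompletePartialOrder
import Pool.Agent.MP_669436_co.Defs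

-- ======== part 0: formerly Pool.Agent.MP_669436_co.Sides
section MrgPart0

set_option autoImplicit false

namespace Pool.Agent.MP_669436_co

open Set Complex Topology

theorem exists_log {X : Type} [TopologicalSpace X] [SimplyConnectedSpace X]
    [LocallyPathConnectedSpace X] (f : X → ℂ) (hf : Continuous f) (h0 : ∀ x, f x ≠ 0) :
    ∃ g : X → ℂ, Continuous g ∧ ∀ x, exp (g x) = f x := by
  obtain ⟨x₀⟩ : Nonempty X := inferInstance
  obtain ⟨F, ⟨-, hF⟩, -⟩ := isCoveringMapOn_exp.existsUnique_continuousMap_lifts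
    (⟨f, hf⟩ : C(X, ℂ)) (a₀ := x₀) (exp_log (h0 x₀)) h0
  exact ⟨F, F.continuous, fun x => congrFun hF x⟩

theorem const_of_exp {s : Set ℝ} (hs : IsPreconnected s) {k : ℝ → ℂ} (hk : Continuous k)
    (h1 : ∀ t ∈ s, exp (k t) = 1) {t t' : ℝ} (ht : t ∈ s) (ht' : t' ∈ s) : k t = k t' := by
  haveI : PreconnectedSpace s := Subtype.preconnectedSpace hs
  refine Complex.isCoveringMap_exp.const_of_comp (g := fun u : s => k u) (by fun_prop) ?_
    ⟨t, ht⟩ ⟨t', ht'⟩
  intro u v
  apply Subtype.ext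
  show exp (k u) = exp (k v)
  rw [h1 u u.2, h1 v v.2]

theorem zero_of_far {H : ℂ → ℂ} (hH : Continuous H) (h0 : ∀ z, H z ≠ 0) {a : ℂ} {m : ℤ} {R : ℝ}
    (hR : ∀ z, R ≤ ‖z‖ → H z = (z - a) ^ m) : m = 0 := by
  obtain ⟨Λ, hΛ, he⟩ := exists_log H hH h0
  set ρ : ℝ := |R| + ‖a‖ + 1 with hρ
  have hρ0 : 0 < ρ := by positivity
  set k : ℝ → ℂ := fun θ => Λ (a + ρ * exp (θ * I)) - m * (Real.log ρ + θ * I) with hk
  have hkc : Continuous k := by fun_prop
  have h1 : ∀ θ ∈ (univ : Set ℝ), exp (k θ) = 1 := by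
    intro θ _
    have hn : ‖(ρ : ℂ) * exp (θ * I)‖ = ρ := by
      rw [norm_mul, norm_exp_ofReal_mul_I, mul_one, norm_real, Real.norm_eq_abs, abs_of_pos hρ0]
    have hz : R ≤ ‖a + ρ * exp (θ * I)‖ := by
      have h2 := norm_sub_le (a + ρ * exp (θ * I)) a
      rw [add_sub_cancel_left, hn] at h2
      linarith [le_abs_self R]
    simp only [hk]
    rw [exp_sub, he, hR _ hz, add_sub_cancel_left, exp_int_mul, exp_add, ← ofReal_exp,
      Real.exp_log hρ0]
    apply div_self
    apply zpow_ne_zero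
    exact mul_ne_zero (by exact_mod_cast hρ0.ne') (exp_ne_zero _)
  have h2 := const_of_exp isPreconnected_univ hkc h1 (mem_univ 0) (mem_univ (2 * Real.pi))
  simp only [hk] at h2
  have h3 : exp (((2 * Real.pi : ℝ) : ℂ) * I) = 1 := by
    push_cast; exact exp_two_pi_mul_I
  rw [h3] at h2
  simp only [ofReal_zero, zero_mul, exp_zero, add_zero] at h2
  have h4 : (m : ℂ) * (((2 * Real.pi : ℝ) : ℂ) * I) = 0 := by linear_combination h2
  rcases mul_eq_zero.1 h4 with h | h
  · exact_mod_cast h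
  · exfalso
    rcases mul_eq_zero.1 h with h | h
    · have : (2 * Real.pi : ℝ) = 0 := by exact_mod_cast h
      linarith [Real.pi_pos]
    · exact I_ne_zero h

theorem closure_comp {L : Set ℂ} (hL : IsClosed L) {a z : ℂ}
    (hz : z ∈ closure (connectedComponentIn Lᶜ a)) (hzL : z ∉ L) :
    z ∈ connectedComponentIn Lᶜ a := by
  have ho : IsOpen (connectedComponentIn Lᶜ z) := hL.isOpen_compl.connectedComponentIn
  obtain ⟨w, hw1, hw2⟩ := mem_closure_iff.1 hz _ ho (mem_connectedComponentIn hzL)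
  rw [connectedComponentIn_eq hw2, ← connectedComponentIn_eq hw1]
  exact mem_connectedComponentIn hzL

theorem core {L : Set ℂ} (hL : IsClosed L) {a b c : ℂ} (ha : a ∉ L) (hb : b ∉ L) (hc : c ∉ L)
    (hb' : b ∉ connectedComponentIn Lᶜ a) (hc' : c ∉ connectedComponentIn Lᶜ a)
    {G : ℂ → ℂ} (hG : Continuous G) {m n : ℤ} {R : ℝ}
    (h1 : ∀ z, z ∈ L ∨ R ≤ ‖z‖ →
      exp (G z) = ((z - a) / (z - c)) ^ m * ((z - b) / (z - c)) ^ n) : m = 0 := by
  classical
  set U := connectedComponentIn Lᶜ a with hU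
  have hUo : IsOpen U := hL.isOpen_compl.connectedComponentIn
  have hcl : ∀ z ∈ closure U, z - b ≠ 0 ∧ z - c ≠ 0 := by
    intro z hz
    constructor
    · intro h
      rw [sub_eq_zero] at h
      subst h
      exact hb' (closure_comp hL hz hb)
    · intro h
      rw [sub_eq_zero] at h
      subst h
      exact hc' (closure_comp hL hz hc)
  have hag : ∀ z ∈ closure U, z ∈ L ∨ R ≤ ‖z‖ →
      exp (G z) * ((z - c) ^ m * ((z - c) / (z - b)) ^ n) = (z - a) ^ m := by
    intro z hz h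
    obtain ⟨e1, e2⟩ := hcl z hz
    rw [h1 z h, div_zpow, div_zpow, div_zpow]
    have := zpow_ne_zero m e2
    have := zpow_ne_zero n e2
    have := zpow_ne_zero n e1
    field_simp
  refine zero_of_far (H := fun z => if z ∈ U then
    exp (G z) * ((z - c) ^ m * ((z - c) / (z - b)) ^ n) else (z - a) ^ m) ?_ ?_ (a := a)
    (R := R) ?_
  · refine continuous_if ?_ ?_ ?_
    · intro z hz
      have hz1 : z ∈ closure U := hz.1
      refine hag z hz1 (Or.inl ?_)
      by_contra hzL
      have h2 : z ∈ interior U := by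
        rw [hUo.interior_eq]; exact closure_comp hL hz1 hzL
      exact hz.2 h2
    · refine ContinuousOn.mul (by fun_prop) (ContinuousOn.mul ?_ ?_)
      · exact ContinuousOn.zpow₀ (by fun_prop) m fun z hz => Or.inl (hcl z hz).2
      · refine ContinuousOn.zpow₀ (ContinuousOn.div (by fun_prop) (by fun_prop)
          fun z hz => (hcl z hz).1) n fun z hz => Or.inl ?_
        exact div_ne_zero (hcl z hz).2 (hcl z hz).1
    · refine ContinuousOn.zpow₀ (by fun_prop) m fun z hz => Or.inl ?_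
      have h2 : closure {z | ¬ z ∈ U} = Uᶜ := hUo.isClosed_compl.closure_eq
      rw [h2] at hz
      intro h
      rw [sub_eq_zero] at h
      subst h
      exact hz (mem_connectedComponentIn ha)
  · intro z
    by_cases hz : z ∈ U
    · obtain ⟨e1, e2⟩ := hcl z (subset_closure hz)
      simp only [hz, if_true]
      exact mul_ne_zero (exp_ne_zero _)
        (mul_ne_zero (zpow_ne_zero _ e2) (zpow_ne_zero _ (div_ne_zero e2 e1)))
    · simp only [hz, if_false]
      apply zpow_ne_zero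
      intro h
      rw [sub_eq_zero] at h
      subst h
      exact hz (mem_connectedComponentIn ha)
  · intro z hz
    by_cases hzU : z ∈ U
    · simp only [hzU, if_true]
      exact hag z (subset_closure hzU) (Or.inr hz)
    · simp only [hzU, if_false]

theorem tail {γ : ℝ → ℂ} (hγ : Continuous γ) {a c : ℂ} (ha : a ∉ range γ) (hc : c ∉ range γ)
    {R T : ℝ} (hR : ‖a‖ + 2 * ‖c‖ < R) (hT : ∀ t, T ≤ |t| → R ≤ ‖γ t‖) (hT0 : 0 ≤ T) :
    ∃ (k : ℝ → ℂ) (φ : ℂ → ℂ) (d : ℤ), Continuous k ∧ Continuous φ ∧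
      (∀ t, exp (φ (γ t) + k t) = (γ t - a) / (γ t - c)) ∧
      (∀ z, R ≤ ‖z‖ → exp (φ z) = (z - a) / (z - c)) ∧
      (∀ t, T ≤ t → k t = d * (2 * Real.pi * I)) ∧ (∀ t, t ≤ -T → k t = 0) := by
  have ha' : ∀ t, γ t - a ≠ 0 := fun t h => ha ⟨t, sub_eq_zero.1 h⟩
  have hc' : ∀ t, γ t - c ≠ 0 := fun t h => hc ⟨t, sub_eq_zero.1 h⟩
  obtain ⟨g, hg, hge⟩ := exists_log (fun t => (γ t - a) / (γ t - c))
    (Continuous.div (by fun_prop) (by fun_prop) hc') (fun t => div_ne_zero (ha' t) (hc' t))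
  have hzc : ∀ z : ℂ, R ≤ ‖z‖ → z - c ≠ 0 := by
    intro z hz h
    rw [sub_eq_zero] at h
    subst h
    linarith [norm_nonneg a, norm_nonneg z]
  have hsl : ∀ z : ℂ, R ≤ ‖z‖ → (z - a) / (z - c) ∈ slitPlane := by
    intro z hz
    have e : (z - a) / (z - c) = 1 + (c - a) / (z - c) := by
      field_simp [hzc z hz]; ring
    rw [e]
    apply mem_slitPlane_of_norm_lt_one
    rw [norm_div, div_lt_one (norm_pos_iff.2 (hzc z hz))]
    have h1 := norm_sub_le c a
    have h2 : ‖z‖ ≤ ‖z - c‖ + ‖c‖ := by simpa using norm_add_le (z - c) c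
    linarith
  have hcl : IsClosed {z : ℂ | R ≤ ‖z‖} := isClosed_le continuous_const continuous_norm
  obtain ⟨φ, hφ⟩ := ContinuousMap.exists_restrict_eq hcl
    (⟨fun z => log ((z.1 - a) / (z.1 - c)), Continuous.clog
      (Continuous.div (by fun_prop) (by fun_prop) fun z => hzc z.1 z.2)
      fun z => hsl z.1 z.2⟩ : C({z : ℂ | R ≤ ‖z‖}, ℂ))
  have hφ' : ∀ z, R ≤ ‖z‖ → exp (φ z) = (z - a) / (z - c) := by
    intro z hz
    have : φ z = log ((z - a) / (z - c)) := DFunLike.congr_fun hφ ⟨z, hz⟩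
    rw [this, exp_log (slitPlane_ne_zero (hsl z hz))]
  have hk0 : Continuous fun t => g t - φ (γ t) := by fun_prop
  have hone : ∀ t, T ≤ |t| → exp (g t - φ (γ t)) = 1 := by
    intro t ht
    rw [exp_sub, hge, hφ' _ (hT t ht)]
    exact div_self (div_ne_zero (ha' t) (hc' t))
  have hp : ∀ t, T ≤ t → g t - φ (γ t) = g T - φ (γ T) := fun t ht =>
    const_of_exp isPreconnected_Ici hk0
      (fun u hu => hone u (le_trans hu (le_abs_self u))) ht (mem_Ici.2 le_rfl)
  have hm : ∀ t, t ≤ -T → g t - φ (γ t) = g (-T) - φ (γ (-T)) := fun t ht =>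
    const_of_exp isPreconnected_Iic hk0
      (fun u hu => hone u (by have : u ≤ -T := hu; linarith [neg_le_abs u])) ht (mem_Iic.2 le_rfl)
  obtain ⟨p, hp'⟩ := exp_eq_one_iff.1 (hone T (le_abs_self T))
  obtain ⟨q, hq'⟩ := exp_eq_one_iff.1 (hone (-T) (by rw [abs_neg]; exact le_abs_self T))
  refine ⟨fun t => g t - φ (γ t) - q * (2 * Real.pi * I), φ, p - q, by fun_prop, φ.continuous,
    fun t => ?_, hφ', fun t ht => ?_, fun t ht => ?_⟩
  · rw [show φ (γ t) + (g t - φ (γ t) - q * (2 * Real.pi * I)) = g t - q * (2 * Real.pi * I) by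
      ring, exp_sub, hge, exp_int_mul_two_pi_mul_I, div_one]
  · simp only []
    rw [hp t ht, hp']; push_cast; ring
  · simp only []
    rw [hm t ht, hq', sub_self]

/-- The complement of a properly embedded line in the plane has at most two components. -/
theorem at_most_two {γ : ℝ → ℂ} (hγ : IsClosedEmbedding γ) {a b c : ℂ} (ha : a ∉ range γ)
    (hb : b ∉ range γ) (hc : c ∉ range γ)
    (hab : connectedComponentIn (range γ)ᶜ a ≠ connectedComponentIn (range γ)ᶜ b)
    (hac : connectedComponentIn (range γ)ᶜ a ≠ connectedComponentIn (range γ)ᶜ c)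
    (hbc : connectedComponentIn (range γ)ᶜ b ≠ connectedComponentIn (range γ)ᶜ c) : False := by
  set R : ℝ := ‖a‖ + ‖b‖ + 2 * ‖c‖ + 1 with hR
  obtain ⟨T, hT0, hT⟩ : ∃ T, 0 ≤ T ∧ ∀ t, T ≤ |t| → R ≤ ‖γ t‖ := by
    have hK : IsCompact (γ ⁻¹' Metric.closedBall 0 R) :=
      hγ.isCompact_preimage (isCompact_closedBall 0 R)
    obtain ⟨T, hT⟩ := hK.isBounded.subset_ball 0
    refine ⟨|T|, abs_nonneg T, fun t ht => ?_⟩
    by_contra h
    have h1 : t ∈ γ ⁻¹' Metric.closedBall 0 R := by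
      simp only [mem_preimage, mem_closedBall_zero_iff]; linarith [not_le.1 h]
    have h2 := hT h1
    rw [mem_ball_zero_iff, Real.norm_eq_abs] at h2
    linarith [le_abs_self T]
  obtain ⟨k1, φ1, d1, c1, c1', e1, f1, g1, h1⟩ := tail hγ.continuous ha hc
    (R := R) (by linarith [norm_nonneg b]) hT hT0
  obtain ⟨k2, φ2, d2, c2, c2', e2, f2, g2, h2⟩ := tail hγ.continuous hb hc
    (R := R) (by linarith [norm_nonneg a]) hT hT0
  obtain ⟨m, n, hmn, hz⟩ : ∃ m n : ℤ, ¬ (m = 0 ∧ n = 0) ∧ m * d1 + n * d2 = 0 := by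
    by_cases h : d1 = 0
    · exact ⟨1, 0, by simp, by simp [h]⟩
    · exact ⟨d2, -d1, fun h' => h (by simpa using h'.2), by ring⟩
  obtain ⟨R', hR'⟩ : ∃ R', ∀ t, |t| ≤ T → ‖γ t‖ ≤ R' := by
    obtain ⟨R', hR'⟩ := ((isCompact_Icc (a := -T) (b := T)).image hγ.continuous).isBounded.subset_closedBall 0
    exact ⟨R', fun t ht => mem_closedBall_zero_iff.1 (hR' ⟨t, abs_le.1 ht, rfl⟩)⟩
  obtain ⟨K, hK⟩ := ContinuousMap.exists_extension' hγ
    (⟨fun t => m * k1 t + n * k2 t, by fun_prop⟩ : C(ℝ, ℂ))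
  have hK' : ∀ t, K (γ t) = m * k1 t + n * k2 t := fun t => congrFun hK t
  set χ : ℂ → ℝ := fun z => max 0 (min 1 (R' + 1 - ‖z‖)) with hχ
  have hχc : Continuous χ := by fun_prop
  set G : ℂ → ℂ := fun z => m * φ1 z + n * φ2 z + χ z * K z with hG
  have hGc : Continuous G := by fun_prop
  have key : ∀ z, z ∈ range γ ∨ max R (R' + 1) ≤ ‖z‖ →
      exp (G z) = ((z - a) / (z - c)) ^ m * ((z - b) / (z - c)) ^ n := by
    rintro z (⟨t, rfl⟩ | hz)
    · have h3 : (χ (γ t) : ℂ) * K (γ t) = m * k1 t + n * k2 t := by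
        rw [hK']
        rcases le_total |t| T with ht | ht
        · have : χ (γ t) = 1 := by
            simp only [hχ]
            rw [min_eq_left (by linarith [hR' t ht]), max_eq_right zero_le_one]
          rw [this]; simp
        · have : (m : ℂ) * k1 t + n * k2 t = 0 := by
            rcases le_abs.1 ht with ht | ht
            · rw [g1 t ht, g2 t ht]
              have : ((m * d1 + n * d2 : ℤ) : ℂ) = 0 := by rw [hz]; simp
              push_cast at this
              linear_combination (2 * Real.pi * I) * this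
            · rw [h1 t (by linarith), h2 t (by linarith)]; simp
          rw [this, mul_zero]
      simp only [hG]
      rw [h3, ← e1, ← e2, ← exp_int_mul, ← exp_int_mul, ← exp_add]
      congr 1
      ring
    · have : χ z = 0 := by
        simp only [hχ]
        exact max_eq_left (min_le_of_right_le (by linarith [le_max_right R (R' + 1)]))
      simp only [hG]
      rw [this, ← f1 z ((le_max_left _ _).trans hz), ← f2 z ((le_max_left _ _).trans hz),
        ← exp_int_mul, ← exp_int_mul, ← exp_add]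
      simp
  have hL := hγ.isClosed_range
  have nm : ∀ {x y : ℂ}, connectedComponentIn (range γ)ᶜ x ≠ connectedComponentIn (range γ)ᶜ y →
      y ∉ connectedComponentIn (range γ)ᶜ x := fun h h' => h (connectedComponentIn_eq h')
  refine hmn ⟨core hL ha hb hc (nm hab) (nm hac) hGc key, ?_⟩
  exact core hL hb ha hc (nm hab.symm) (nm hbc) hGc (n := m)
    (fun z hz => by rw [key z hz, mul_comm])

end Pool.Agent.MP_669436_co

end MrgPart0

-- ======== part 1: formerly Pool.Agent.MP_669436_co.Walks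
section MrgPart1

set_option autoImplicit false

namespace Pool.Agent.MP_669436_co

open Relation

variable {ι : Type} [Fintype ι] [DecidableEq ι]

/-- Combinatorial data of an arrangement of monotone pseudolines: slope ranks `r` and
crossing parameters `t i j` (position on line `i` of the crossing with line `j`). -/
structure Wiring (r : ι → ℤ) (t : ι → ι → ℝ) : Prop where
  r_inj : ∀ i j, r i = r j → i = j
  t_inj : ∀ i j k, j ≠ i → k ≠ i → t i j = t i k → j = k
  tri : ∀ i j k, r i < r j → r j < r k →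
    (t i j < t i k ↔ t j i < t j k) ∧ (t j i < t j k ↔ t k i < t k j)

/-- The crossing of `p.1` and `p.2` lies above the line `x`. -/
def Up (r : ι → ℤ) (t : ι → ι → ℝ) (p : ι × ι) (x : ι) : Prop :=
  r x < r p.1 ↔ t p.1 x < t p.1 p.2

/-- On line `a` the crossing with `x` lies strictly between those with `b` and `e`. -/
def Btw (t : ι → ι → ℝ) (a b x e : ι) : Prop :=
  (t a b < t a x ∧ t a x < t a e) ∨ (t a e < t a x ∧ t a x < t a b)

/-- Both lines through the vertex are allowed. -/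
def Val (M : Finset ι) (p : ι × ι) : Prop := p.1 ≠ p.2 ∧ p.1 ∈ M ∧ p.2 ∈ M

/-- One step of a walk using only lines of `M`. -/
def Step (t : ι → ι → ℝ) (M : Finset ι) (p q : ι × ι) : Prop :=
  Val M p ∧ Val M q ∧ (q = p.swap ∨ (q.1 = p.1 ∧ ∀ x, x ≠ p.1 → ¬ Btw t p.1 p.2 x q.2))

/-- Walks using only lines of `M`. -/
def Conn (t : ι → ι → ℝ) (M : Finset ι) : ι × ι → ι × ι → Prop := ReflTransGen (Step t M)

variable {r : ι → ℤ} {t : ι → ι → ℝ}

omit [Fintype ι] [DecidableEq ι] in
theorem Wiring.up_swap (W : Wiring r t) {a b x : ι} (hab : a ≠ b) (hxa : x ≠ a) (hxb : x ≠ b) :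
    Up r t (a, b) x ↔ Up r t (b, a) x := by
  have h1 := W.r_inj a b
  have h2 := W.r_inj a x
  have h3 := W.r_inj b x
  have i1 := W.t_inj a b x
  have i2 := W.t_inj b a x
  have i3 := W.t_inj x a b
  have t1 := W.tri a b x
  have t2 := W.tri a x b
  have t3 := W.tri b a x
  have t4 := W.tri b x a
  have t5 := W.tri x a b
  have t6 := W.tri x b a
  simp only [Up]
  grind

omit [Fintype ι] [DecidableEq ι] in
theorem Conn.mono {M M' : Finset ι} (h : M ⊆ M') {p q : ι × ι} (hc : Conn t M p q) :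
    Conn t M' p q := by
  induction hc with
  | refl => exact ReflTransGen.refl
  | tail _ hs ih =>
    exact ReflTransGen.tail ih ⟨⟨hs.1.1, h hs.1.2.1, h hs.1.2.2⟩,
      ⟨hs.2.1.1, h hs.2.1.2.1, h hs.2.1.2.2⟩, hs.2.2⟩

omit [Fintype ι] [DecidableEq ι] in
theorem Conn.val {M : Finset ι} {p q : ι × ι} (hc : Conn t M p q) (hp : Val M p) : Val M q := by
  induction hc with
  | refl => exact hp
  | tail _ hs _ => exact hs.2.1

omit [Fintype ι] [DecidableEq ι] in
theorem conn_swap {M : Finset ι} {a b : ι} (hp : Val M (a, b)) : Conn t M (a, b) (b, a) :=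
  ReflTransGen.single ⟨hp, ⟨hp.1.symm, hp.2.2, hp.2.1⟩, Or.inl rfl⟩

open Classical in
theorem seg (M : Finset ι) (a : ι) (N : ℕ) : ∀ b e,
    (Finset.univ.filter fun x => x ≠ a ∧ Btw t a b x e).card ≤ N → Val M (a, b) → Val M (a, e) →
    (∀ x, x ≠ a → Btw t a b x e → x ∈ M) → Conn t M (a, b) (a, e) := by
  induction N with
  | zero =>
    intro b e hN hb he _
    refine ReflTransGen.single ⟨hb, he, Or.inr ⟨rfl, fun x hx hB => ?_⟩⟩
    have : x ∈ Finset.univ.filter fun x => x ≠ a ∧ Btw t a b x e := by simp [hx]; exact hB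
    have := Finset.card_pos.2 ⟨x, this⟩
    omega
  | succ N ih =>
    intro b e hN hb he hM
    by_cases h : ∃ x, x ≠ a ∧ Btw t a b x e
    · obtain ⟨x, hx, hB⟩ := h
      have hxv : Val M (a, x) := ⟨hx.symm, hb.2.1, hM x hx hB⟩
      have hmem : x ∈ Finset.univ.filter fun x => x ≠ a ∧ Btw t a b x e := by
        simp [hx]; exact hB
      have s1 : ∀ y, Btw t a b y x → Btw t a b y e := by
        intro y; simp only [Btw] at hB ⊢; grind
      have s2 : ∀ y, Btw t a x y e → Btw t a b y e := by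
        intro y; simp only [Btw] at hB ⊢; grind
      refine ReflTransGen.trans (ih b x ?_ hb hxv fun y hy h => hM y hy (s1 y h))
        (ih x e ?_ hxv he fun y hy h => hM y hy (s2 y h))
      · have : (Finset.univ.filter fun y => y ≠ a ∧ Btw t a b y x) ⊂
            Finset.univ.filter fun x => x ≠ a ∧ Btw t a b x e := by
          refine (Finset.ssubset_iff_of_subset fun y hy => ?_).2 ⟨x, hmem, ?_⟩
          · simp only [Finset.mem_filter, Finset.mem_univ, true_and] at hy ⊢
            exact ⟨hy.1, s1 y hy.2⟩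
          · simp [Btw]
        have := Finset.card_lt_card this
        omega
      · have : (Finset.univ.filter fun y => y ≠ a ∧ Btw t a x y e) ⊂
            Finset.univ.filter fun x => x ≠ a ∧ Btw t a b x e := by
          refine (Finset.ssubset_iff_of_subset fun y hy => ?_).2 ⟨x, hmem, ?_⟩
          · simp only [Finset.mem_filter, Finset.mem_univ, true_and] at hy ⊢
            exact ⟨hy.1, s2 y hy.2⟩
          · simp [Btw]
        have := Finset.card_lt_card this
        omega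
    · exact ReflTransGen.single ⟨hb, he, Or.inr ⟨rfl, fun x hx hB => h ⟨x, hx, hB⟩⟩⟩

theorem seg' {M : Finset ι} {a b e : ι} (hb : Val M (a, b)) (he : Val M (a, e))
    (h : ∀ x, x ≠ a → Btw t a b x e → x ∈ M) : Conn t M (a, b) (a, e) :=
  seg M a _ b e le_rfl hb he h

open Classical in
theorem first_step (a b : ι) (N : ℕ) : ∀ e,
    (Finset.univ.filter fun x => x ≠ a ∧ Btw t a b x e).card ≤ N → e ≠ a →
    ∃ c, c ≠ a ∧ (c = e ∨ Btw t a b c e) ∧ ∀ x, x ≠ a → ¬ Btw t a b x c := by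
  induction N with
  | zero =>
    intro e hN he
    refine ⟨e, he, Or.inl rfl, fun x hx hB => ?_⟩
    have : x ∈ Finset.univ.filter fun x => x ≠ a ∧ Btw t a b x e := by simp [hx]; exact hB
    have := Finset.card_pos.2 ⟨x, this⟩
    omega
  | succ N ih =>
    intro e hN he
    by_cases h : ∃ x, x ≠ a ∧ Btw t a b x e
    · obtain ⟨x, hx, hB⟩ := h
      have hmem : x ∈ Finset.univ.filter fun x => x ≠ a ∧ Btw t a b x e := by
        simp [hx]; exact hB
      have s1 : ∀ y, Btw t a b y x → Btw t a b y e := by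
        intro y; simp only [Btw] at hB ⊢; grind
      have : (Finset.univ.filter fun y => y ≠ a ∧ Btw t a b y x) ⊂
          Finset.univ.filter fun x => x ≠ a ∧ Btw t a b x e := by
        refine (Finset.ssubset_iff_of_subset fun y hy => ?_).2 ⟨x, hmem, ?_⟩
        · simp only [Finset.mem_filter, Finset.mem_univ, true_and] at hy ⊢
          exact ⟨hy.1, s1 y hy.2⟩
        · simp [Btw]
      have := Finset.card_lt_card this
      obtain ⟨c, h1, h2, h3⟩ := ih x (by omega) hx
      refine ⟨c, h1, Or.inr ?_, h3⟩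
      rcases h2 with rfl | h2
      · exact hB
      · exact s1 c h2
    · exact ⟨e, he, Or.inl rfl, fun x hx hB => h ⟨x, hx, hB⟩⟩

omit [Fintype ι] [DecidableEq ι] in
theorem Wiring.ivt (W : Wiring r t) {M : Finset ι} {p q : ι × ι} (hc : Conn t M p q) {x : ι}
    (hx : x ∉ M) : Up r t p x ↔ Up r t q x := by
  induction hc with
  | refl => rfl
  | @tail y z _ hs ih =>
    rw [ih]
    obtain ⟨⟨h1, h2, h3⟩, ⟨h4, h5, h6⟩, h7⟩ := hs
    have n1 : x ≠ y.1 := fun h => hx (h ▸ h2)
    have n2 : x ≠ y.2 := fun h => hx (h ▸ h3)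
    have n3 : x ≠ z.2 := fun h => hx (h ▸ h6)
    rcases h7 with rfl | ⟨h7, h8⟩
    · exact W.up_swap h1 n1 n2
    · have h9 := h8 x n1
      have i1 := W.t_inj y.1 x y.2 n1 h1.symm
      have i2 := W.t_inj y.1 x z.2 n1 (h7 ▸ h4.symm)
      simp only [Up, Btw, h7] at h9 ⊢
      grind

omit [Fintype ι] [DecidableEq ι] in
theorem sep_of_btw {a b x e : ι} (h : Btw t a b x e) :
    ¬ (Up r t (a, b) x ↔ Up r t (a, e) x) := by
  simp only [Up, Btw] at h ⊢
  grind

omit [Fintype ι] in
theorem last_visit {M : Finset ι} (a b : ι) (hab : a ≠ b) {p q : ι × ι} (hc : Conn t M p q)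
    (hq : Val M q) :
    (p.1 ≠ a ∧ p.2 ≠ a ∧ p.1 ≠ b ∧ p.2 ≠ b ∧ Conn t ((M.erase a).erase b) p q) ∨
    ∃ x, Conn t M p x ∧
      (((x.1 = a ∨ x.2 = a) ∧ x.1 ≠ b ∧ x.2 ≠ b ∧ Conn t (M.erase b) x q) ∨
       ((x.1 = b ∨ x.2 = b) ∧ x.1 ≠ a ∧ x.2 ≠ a ∧ Conn t (M.erase a) x q) ∨
       ((x = (a, b) ∨ x = (b, a)) ∧ x = q)) := by
  induction hc using ReflTransGen.head_induction_on with
  | refl =>
    by_cases ha : q.1 = a ∨ q.2 = a
    · by_cases hb : q.1 = b ∨ q.2 = b
      · refine Or.inr ⟨q, ReflTransGen.refl, Or.inr (Or.inr ⟨?_, rfl⟩)⟩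
        have := hq.1
        obtain ⟨q1, q2⟩ := q
        simp only [Prod.mk.injEq] at *
        grind
      · push Not at hb
        exact Or.inr ⟨q, ReflTransGen.refl, Or.inl ⟨ha, hb.1, hb.2, ReflTransGen.refl⟩⟩
    · push Not at ha
      by_cases hb : q.1 = b ∨ q.2 = b
      · exact Or.inr ⟨q, ReflTransGen.refl, Or.inr (Or.inl ⟨hb, ha.1, ha.2, ReflTransGen.refl⟩)⟩
      · push Not at hb
        exact Or.inl ⟨ha.1, ha.2, hb.1, hb.2, ReflTransGen.refl⟩
  | @head y z hs _ ih =>
    rcases ih with ⟨h1, h2, h3, h4, h5⟩ | ⟨x, hx, h⟩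
    · obtain ⟨⟨v1, v2, v3⟩, ⟨w1, w2, w3⟩, h7⟩ := hs
      by_cases ha : y.1 = a ∨ y.2 = a
      · by_cases hb : y.1 = b ∨ y.2 = b
        · exfalso
          rcases h7 with rfl | ⟨h7, -⟩
          · simp only [Prod.fst_swap, Prod.snd_swap] at *
            grind
          · grind
        · push Not at hb
          refine Or.inr ⟨y, ReflTransGen.refl, Or.inl ⟨ha, hb.1, hb.2, ReflTransGen.head
            ⟨⟨v1, by simp [hb.1, v2], by simp [hb.2, v3]⟩,
              ⟨w1, by simp [h3, w2], by simp [h4, w3]⟩, h7⟩ (Conn.mono ?_ h5)⟩⟩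
          exact Finset.erase_subset_erase _ (Finset.erase_subset _ _)
      · push Not at ha
        by_cases hb : y.1 = b ∨ y.2 = b
        · refine Or.inr ⟨y, ReflTransGen.refl, Or.inr (Or.inl ⟨hb, ha.1, ha.2, ReflTransGen.head
            ⟨⟨v1, by simp [ha.1, v2], by simp [ha.2, v3]⟩,
              ⟨w1, by simp [h1, w2], by simp [h2, w3]⟩, h7⟩ (Conn.mono ?_ h5)⟩)⟩
          exact Finset.erase_subset _ _
        · push Not at hb
          exact Or.inl ⟨ha.1, ha.2, hb.1, hb.2, ReflTransGen.head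
            ⟨⟨v1, by simp [ha.1, hb.1, v2], by simp [ha.2, hb.2, v3]⟩,
              ⟨w1, by simp [h1, h3, w2], by simp [h2, h4, w3]⟩, h7⟩ h5⟩
    · exact Or.inr ⟨x, ReflTransGen.head hs hx, h⟩

/-- A walk that uses only the lines of `M` can be shortened to length at most `|M| - 2`. -/
theorem Wiring.edist_le (W : Wiring r t) {V : Type} (G : SimpleGraph V) (P : ι → ι → V)
    (hP : ∀ a b, a ≠ b → P a b = P b a)
    (hA : ∀ a b c, b ≠ a → c ≠ a → b ≠ c → (∀ x, x ≠ a → ¬ Btw t a b x c) →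
      G.Adj (P a b) (P a c)) (N : ℕ) :
    ∀ (M : Finset ι) (p q : ι × ι), M.card = N → Val M p → Conn t M p q →
      G.edist (P p.1 p.2) (P q.1 q.2) ≤ (N - 2 : ℕ) := by
  induction N with
  | zero =>
    intro M p q hM hp _
    have := Finset.card_pos.2 ⟨_, hp.2.1⟩
    omega
  | succ N ih =>
    have one : ∀ (M : Finset ι) (a b : ι) (x q : ι × ι), M.card = N + 1 → Val M (a, b) →
        Conn t M (a, b) x → (x.1 = a ∨ x.2 = a) → x.1 ≠ b → x.2 ≠ b →
        Conn t (M.erase b) x q → G.edist (P a b) (P q.1 q.2) ≤ (N + 1 - 2 : ℕ) := by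
      intro M a b x q hM hp h1 h2 h3 h4 h5
      have hx := h1.val hp
      obtain ⟨e, he1, he2, he3, he4⟩ : ∃ e, e ≠ b ∧ Val M (a, e) ∧ Conn t M (a, b) (a, e) ∧
          Conn t (M.erase b) (a, e) q := by
        obtain ⟨x1, x2⟩ := x
        rcases h2 with rfl | rfl
        · exact ⟨x2, h4, hx, h1, h5⟩
        · refine ⟨x1, h3, ⟨hx.1.symm, hx.2.2, hx.2.1⟩, h1.trans (conn_swap hx),
            ReflTransGen.trans (conn_swap ⟨hx.1.symm, ?_, ?_⟩) h5⟩
          · exact Finset.mem_erase.2 ⟨h4, hx.2.2⟩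
          · exact Finset.mem_erase.2 ⟨h3, hx.2.1⟩
      have hin : ∀ y, y ≠ a → Btw t a b y e → y ∈ M := by
        intro y _ hB
        by_contra hy
        exact sep_of_btw hB (W.ivt he3 hy)
      obtain ⟨c, c1, c2, c3⟩ := first_step (t := t) a b _ e le_rfl he2.1.symm
      have hcb : c ≠ b := by
        rcases c2 with rfl | c2
        · exact he1
        · rintro rfl
          simp [Btw] at c2
      have hcM : c ∈ M := by
        rcases c2 with rfl | c2
        · exact he2.2.2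
        · exact hin c c1 c2
      have haM : a ∈ M.erase b := Finset.mem_erase.2 ⟨hp.1, hp.2.1⟩
      have hcv : Val (M.erase b) (a, c) := ⟨c1.symm, haM, Finset.mem_erase.2 ⟨hcb, hcM⟩⟩
      have hev : Val (M.erase b) (a, e) := ⟨he2.1, haM, Finset.mem_erase.2 ⟨he1, he2.2.2⟩⟩
      have h6 : Conn t (M.erase b) (a, c) (a, e) := by
        refine seg' hcv hev fun y hy hB => ?_
        have hB' : Btw t a b y e := by
          rcases c2 with rfl | c2
          · simp only [Btw] at hB; grind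
          · simp only [Btw] at hB c2 ⊢; grind
        refine Finset.mem_erase.2 ⟨?_, hin y hy hB'⟩
        rintro rfl
        simp [Btw] at hB'
      have hcard : (M.erase b).card = N := by rw [Finset.card_erase_of_mem hp.2.2, hM]; rfl
      have h7 := ih (M.erase b) (a, c) q hcard hcv (h6.trans he4)
      have h8 : 2 ≤ N := by
        rw [← hcard]
        exact Finset.one_lt_card.2 ⟨a, haM, c, hcv.2.2, c1.symm⟩
      have h9 : G.edist (P a b) (P a c) ≤ 1 :=
        (SimpleGraph.edist_eq_one_iff_adj.2 (hA a b c hp.1.symm c1 hcb.symm c3)).le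
      calc G.edist (P a b) (P q.1 q.2) ≤ G.edist (P a b) (P a c) + G.edist (P a c) (P q.1 q.2) :=
            SimpleGraph.edist_triangle
        _ ≤ 1 + (N - 2 : ℕ) := add_le_add h9 h7
        _ = (N + 1 - 2 : ℕ) := by
            rw [show N + 1 - 2 = 1 + (N - 2) by omega]; push_cast; rfl
    rintro M ⟨a, b⟩ q hM hp hc
    rcases last_visit a b hp.1 hc (hc.val hp) with h | ⟨x, hx, h | h | h⟩
    · exact absurd rfl h.1
    · exact one M a b x q hM hp hx h.1 h.2.1 h.2.2.1 h.2.2.2
    · have hp' : Val M (b, a) := ⟨hp.1.symm, hp.2.2, hp.2.1⟩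
      rw [hP a b hp.1]
      exact one M b a x q hM hp' (ReflTransGen.trans (conn_swap hp') hx)
        h.1 h.2.1 h.2.2.1 h.2.2.2
    · obtain ⟨rfl | rfl, rfl⟩ := h
      · simp
      · simp [hP a b hp.1]

end Pool.Agent.MP_669436_co

end MrgPart1

-- ======== part 2: formerly Pool.Agent.MP_669436_co.Center
section MrgPart2

set_option autoImplicit false

namespace Pool.Agent.MP_669436_co

open Relation

variable {ι : Type}

/-- The point of parameter `τ` on line `c` is on or above line `x`. -/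
def GeL (r : ι → ℤ) (t : ι → ι → ℝ) (c : ι) (τ : ℝ) (x : ι) : Prop :=
  x = c ∨ (r x < r c ∧ t c x ≤ τ) ∨ (r c < r x ∧ τ ≤ t c x)

/-- The point of parameter `τ` on line `c` is on or below line `x`. -/
def LeL (r : ι → ℤ) (t : ι → ι → ℝ) (c : ι) (τ : ℝ) (x : ι) : Prop :=
  x = c ∨ (r x < r c ∧ τ ≤ t c x) ∨ (r c < r x ∧ t c x ≤ τ)

variable {r : ι → ℤ} {t : ι → ι → ℝ}

theorem Wiring.tri' (W : Wiring r t) (i j k : ι) (h1 : r i < r j) (h2 : r j < r k) :
    (t i j < t i k ∧ t j i < t j k ∧ t k i < t k j) ∨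
    (t i k < t i j ∧ t j k < t j i ∧ t k j < t k i) := by
  have t1 := W.tri i j k h1 h2
  have n1 : i ≠ j := by rintro rfl; omega
  have n2 : j ≠ k := by rintro rfl; omega
  have n3 : i ≠ k := by rintro rfl; omega
  have i1 : t i j ≠ t i k := fun h => n2 (W.t_inj i j k n1.symm n3.symm h)
  have i2 : t j i ≠ t j k := fun h => n3 (W.t_inj j i k n1 n2.symm h)
  have i3 : t k i ≠ t k j := fun h => n1 (W.t_inj k i j n3 n2 h)
  grind

theorem Wiring.m1 (W : Wiring r t) {i j k : ι} (h1 : r i < r j) (h2 : r j < r k)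
    (h : t i k < t i j) (c : ι) (τ : ℝ) :
    ¬ (GeL r t c τ i ∧ LeL r t c τ j ∧ GeL r t c τ k) := by
  have a0 := W.tri' i j k h1 h2
  have a1 := W.tri' c i j
  have a2 := W.tri' c i k
  have a3 := W.tri' c j k
  have b1 := W.tri' i c j
  have b2 := W.tri' i c k
  have b3 := W.tri' j c k
  have c1 := W.tri' i j c
  have c2 := W.tri' i k c
  have c3 := W.tri' j k c
  simp only [GeL, LeL]
  grind

theorem Wiring.xflip (W : Wiring r t) : Wiring (fun i => -r i) (fun i j => -t i j) where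
  r_inj i j h := W.r_inj i j (neg_injective h)
  t_inj i j k h1 h2 h := W.t_inj i j k h1 h2 (neg_injective h)
  tri i j k h1 h2 := by
    have := W.tri' k j i (by linarith) (by linarith)
    grind

theorem Wiring.yflip (W : Wiring r t) : Wiring (fun i => -r i) t where
  r_inj i j h := W.r_inj i j (neg_injective h)
  t_inj := W.t_inj
  tri i j k h1 h2 := by
    have := W.tri' k j i (by linarith) (by linarith)
    grind

theorem Wiring.m2 (W : Wiring r t) {i j k : ι} (h1 : r i < r j) (h2 : r j < r k)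
    (h : t i j < t i k) (c : ι) (τ : ℝ) :
    ¬ (LeL r t c τ i ∧ GeL r t c τ j ∧ LeL r t c τ k) := by
  have a0 := W.tri' i j k h1 h2
  have := W.yflip.m1 (i := k) (j := j) (k := i) (by simpa using h2) (by simpa using h1)
    (by grind) c τ
  simp only [GeL, LeL] at this ⊢
  grind

theorem Wiring.ge_swap (W : Wiring r t) {a b : ι} (hab : a ≠ b) (x : ι) :
    GeL r t a (t a b) x ↔ GeL r t b (t b a) x := by
  have h1 := W.r_inj a b
  have h2 := W.r_inj a x
  have h3 := W.r_inj b x
  have t1 := W.tri' a b x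
  have t2 := W.tri' a x b
  have t3 := W.tri' b a x
  have t4 := W.tri' b x a
  have t5 := W.tri' x a b
  have t6 := W.tri' x b a
  simp only [GeL]
  grind

theorem Wiring.le_swap (W : Wiring r t) {a b : ι} (hab : a ≠ b) (x : ι) :
    LeL r t a (t a b) x ↔ LeL r t b (t b a) x := by
  have := W.yflip.ge_swap hab x
  simp only [GeL, LeL] at this ⊢
  grind

theorem Wiring.no_opp (W : Wiring r t) {i j k : ι} (h1 : r i < r j) (h2 : r j < r k)
    {c c' : ι} {τ τ' : ℝ} (h : GeL r t c τ i ∧ LeL r t c τ j ∧ GeL r t c τ k)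
    (h' : LeL r t c' τ' i ∧ GeL r t c' τ' j ∧ LeL r t c' τ' k) : False := by
  rcases W.tri' i j k h1 h2 with a | a
  · exact W.m2 h1 h2 a.1 c' τ' h'
  · exact W.m1 h1 h2 a.1 c τ h

theorem Wiring.total (W : Wiring r t) (c : ι) (τ : ℝ) (x : ι) :
    GeL r t c τ x ∨ LeL r t c τ x := by
  have := W.r_inj x c
  simp only [GeL, LeL]
  grind

theorem Wiring.both (W : Wiring r t) {c d x : ι} (hcd : c ≠ d) :
    (GeL r t c (t c d) x ∧ LeL r t c (t c d) x) ↔ (x = c ∨ x = d) := by
  have := W.r_inj d c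
  have := W.t_inj c x d
  simp only [GeL, LeL]
  grind

variable [DecidableEq ι]

open Classical in
theorem Wiring.pick (W : Wiring r t) (Γ : Finset ι) {c c' : ι} {τ τ' : ℝ} {l : ι} (hl : l ∈ Γ)
    (hl' : GeL r t c' τ' l ∧ LeL r t c' τ' l)
    (h : (Γ.filter fun x => ¬ GeL r t c τ x).card = (Γ.filter fun x => ¬ GeL r t c' τ' x).card) :
    ∃ x ∈ Γ, GeL r t c τ x ∧ LeL r t c' τ' x := by
  have h1 : (Γ.filter fun x => ¬ GeL r t c τ x).card <
      (insert l (Γ.filter fun x => ¬ GeL r t c' τ' x)).card := by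
    rw [Finset.card_insert_of_notMem (by simp [hl'.1])]
    omega
  obtain ⟨x, hx1, hx2⟩ := Finset.exists_mem_notMem_of_card_lt_card h1
  rcases Finset.mem_insert.1 hx1 with rfl | hx1
  · exact ⟨x, hl, by simpa [hl] using hx2, hl'.2⟩
  · obtain ⟨a1, a2⟩ := Finset.mem_filter.1 hx1
    exact ⟨x, a1, by simpa [a1] using hx2, (W.total c' τ' x).resolve_left a2⟩

open Classical in
theorem Wiring.count (W : Wiring r t) (Γ : Finset ι) {c : ι} {τ : ℝ} {l : ι} (hl : l ∈ Γ)
    (h : ∀ x ∈ Γ, (GeL r t c τ x ∧ LeL r t c τ x) ↔ x = l) :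
    (Γ.filter fun x => ¬ GeL r t c τ x).card + (Γ.filter fun x => ¬ LeL r t c τ x).card + 1
      = Γ.card := by
  rw [← Finset.card_union_of_disjoint, ← Finset.card_insert_of_notMem (a := l)]
  · congr 1
    ext x
    have := h x
    have := W.total c τ x
    simp only [Finset.mem_insert, Finset.mem_union, Finset.mem_filter]
    grind
  · have := (h l hl).2 rfl
    simp [this.1, this.2]
  · rw [Finset.disjoint_filter]
    intro x _ h1 h2
    have := W.total c τ x
    tauto

open Classical in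
/-- Discrete ham sandwich: a vertex halving two slope separated families. -/
theorem Wiring.ham (W : Wiring r t) (G₁ G₂ : Finset ι) (k : ℕ) (h₁ : G₁.card = 2 * k + 1)
    (h₂ : G₂.card = 2 * k + 1) (hs : ∀ x ∈ G₁, ∀ y ∈ G₂, r x < r y) :
    ∃ c ∈ G₁, ∃ d ∈ G₂,
      (G₁.filter fun x => ¬ GeL r t c (t c d) x).card = k ∧
      (G₁.filter fun x => ¬ LeL r t c (t c d) x).card = k ∧
      (G₂.filter fun x => ¬ GeL r t c (t c d) x).card = k ∧
      (G₂.filter fun x => ¬ LeL r t c (t c d) x).card = k := by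
  have ne : ∀ x ∈ G₁, ∀ y ∈ G₂, x ≠ y := fun x hx y hy h => by
    have := hs x hx y hy
    rw [h] at this
    exact lt_irrefl _ this
  have u1 : ∀ c ∈ G₁, ∀ d ∈ G₂, ∀ x ∈ G₁,
      (GeL r t c (t c d) x ∧ LeL r t c (t c d) x) ↔ x = c := fun c hc d hd x hx => by
    rw [W.both (ne c hc d hd)]
    have := ne x hx d hd
    tauto
  have u2 : ∀ c ∈ G₁, ∀ d ∈ G₂, ∀ x ∈ G₂,
      (GeL r t c (t c d) x ∧ LeL r t c (t c d) x) ↔ x = d := fun c hc d hd x hx => by
    rw [W.both (ne c hc d hd)]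
    have := (ne c hc x hx).symm
    tauto
  have hsurj := Finset.surj_on_of_inj_on_of_card_le (s := G₁ ×ˢ G₂)
    (t := Finset.range (2 * k + 1) ×ˢ Finset.range (2 * k + 1))
    (fun p _ => ((G₁.filter fun x => ¬ GeL r t p.1 (t p.1 p.2) x).card,
      (G₂.filter fun x => ¬ GeL r t p.1 (t p.1 p.2) x).card)) ?_ ?_ (by simp [h₁, h₂])
  · obtain ⟨⟨c, d⟩, hp, he⟩ := hsurj (k, k) (by simp; omega)
    obtain ⟨hc, hd⟩ := Finset.mem_product.1 hp
    simp only [Prod.mk.injEq] at he hc hd
    have c1 := W.count G₁ hc (u1 c hc d hd)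
    have c2 := W.count G₂ hd (u2 c hc d hd)
    exact ⟨c, hc, d, hd, he.1.symm, by omega, he.2.symm, by omega⟩
  · rintro ⟨c, d⟩ hp
    obtain ⟨hc, hd⟩ := Finset.mem_product.1 hp
    have c1 := W.count G₁ hc (u1 c hc d hd)
    have c2 := W.count G₂ hd (u2 c hc d hd)
    simp only [Finset.mem_product, Finset.mem_range] at *
    omega
  · rintro ⟨c, d⟩ ⟨c', d'⟩ hp hp' he
    obtain ⟨hc, hd⟩ := Finset.mem_product.1 hp
    obtain ⟨hc', hd'⟩ := Finset.mem_product.1 hp'
    simp only [Prod.mk.injEq] at he hc hd hc' hd' ⊢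
    obtain ⟨x1, m1, p1, q1⟩ := W.pick G₁ hc' ((u1 c' hc' d' hd' c' hc').2 rfl) he.1
    obtain ⟨y1, m2, p2, q2⟩ := W.pick G₁ hc ((u1 c hc d hd c hc).2 rfl) he.1.symm
    obtain ⟨x2, m3, p3, q3⟩ := W.pick G₂ hd' ((u2 c' hc' d' hd' d' hd').2 rfl) he.2
    obtain ⟨y2, m4, p4, q4⟩ := W.pick G₂ hd ((u2 c hc d hd d hd).2 rfl) he.2.symm
    constructor
    · by_contra hne
      rcases lt_trichotomy (r x1) (r y1) with h | h | h
      · exact W.no_opp h (hs y1 m2 x2 m3) ⟨p1, q2, p3⟩ ⟨q1, p2, q3⟩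
      · obtain rfl := W.r_inj _ _ h
        exact hne (((u1 c hc d hd x1 m1).1 ⟨p1, q2⟩).symm.trans
          ((u1 c' hc' d' hd' x1 m1).1 ⟨p2, q1⟩))
      · exact W.no_opp h (hs x1 m1 y2 m4) ⟨p2, q1, p4⟩ ⟨q2, p1, q4⟩
    · by_contra hne
      rcases lt_trichotomy (r x2) (r y2) with h | h | h
      · exact W.no_opp (hs y1 m2 x2 m3) h ⟨p2, q3, p4⟩ ⟨q2, p3, q4⟩
      · obtain rfl := W.r_inj _ _ h
        exact hne (((u2 c hc d hd x2 m3).1 ⟨p3, q4⟩).symm.trans
          ((u2 c' hc' d' hd' x2 m3).1 ⟨p4, q3⟩))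
      · exact W.no_opp (hs x1 m1 y2 m4) h ⟨p1, q4, p3⟩ ⟨q1, p4, q3⟩

variable [Fintype ι]

theorem Wiring.valA (W : Wiring r t) {K : Finset ι} {a b : ι} (hab : a ≠ b)
    (h : ∀ x ∈ K, ¬ GeL r t a (t a b) x) : Val Kᶜ (a, b) :=
  ⟨hab, Finset.mem_compl.2 fun hx => h a hx ((W.both hab).2 (Or.inl rfl)).1,
    Finset.mem_compl.2 fun hx => h b hx ((W.both hab).2 (Or.inr rfl)).1⟩

theorem Wiring.valB (W : Wiring r t) {K : Finset ι} {a b : ι} (hab : a ≠ b)
    (h : ∀ x ∈ K, ¬ LeL r t a (t a b) x) : Val Kᶜ (a, b) :=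
  ⟨hab, Finset.mem_compl.2 fun hx => h a hx ((W.both hab).2 (Or.inl rfl)).2,
    Finset.mem_compl.2 fun hx => h b hx ((W.both hab).2 (Or.inr rfl)).2⟩

theorem Wiring.linkA (W : Wiring r t) {K : Finset ι} {a b e : ι} (hab : a ≠ b) (hae : a ≠ e)
    (h : ∀ x ∈ K, ¬ GeL r t a (t a b) x) (h' : ∀ x ∈ K, ¬ GeL r t a (t a e) x) :
    Conn t Kᶜ (a, b) (e, a) := by
  refine ReflTransGen.trans (seg' (W.valA hab h) (W.valA hae h') fun x hx hB => ?_)
    (conn_swap (W.valA hae h'))
  refine Finset.mem_compl.2 fun hK => ?_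
  have h1 := h x hK
  have h2 := h' x hK
  have := W.r_inj x a
  simp only [GeL, Btw] at h1 h2 hB
  grind

theorem Wiring.linkB (W : Wiring r t) {K : Finset ι} {a b e : ι} (hab : a ≠ b) (hae : a ≠ e)
    (h : ∀ x ∈ K, ¬ LeL r t a (t a b) x) (h' : ∀ x ∈ K, ¬ LeL r t a (t a e) x) :
    Conn t Kᶜ (a, b) (e, a) := by
  refine ReflTransGen.trans (seg' (W.valB hab h) (W.valB hae h') fun x hx hB => ?_)
    (conn_swap (W.valB hae h'))
  refine Finset.mem_compl.2 fun hK => ?_
  have h1 := h x hK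
  have h2 := h' x hK
  have := W.r_inj x a
  simp only [LeL, Btw] at h1 h2 hB
  grind

theorem Wiring.caseA (W : Wiring r t) {θ : ℤ} {c d e f : ι} (hc : r c < θ) (hd : θ ≤ r d)
    (hef : e ≠ f) (he : r e < θ) (he' : e = c ∨ ¬ GeL r t c (t c d) e) {B₁ A₂ B₂ : Finset ι}
    (hB₁ : ∀ x ∈ B₁, r x < θ ∧ ¬ LeL r t c (t c d) x)
    (hA₂ : ∀ x ∈ A₂, θ ≤ r x ∧ ¬ GeL r t c (t c d) x)
    (hB₂ : ∀ x ∈ B₂, θ ≤ r x ∧ ¬ LeL r t c (t c d) x) :
    Conn t B₁ᶜ (c, d) (f, e) ∨ Conn t A₂ᶜ (c, d) (f, e) ∨ Conn t B₂ᶜ (c, d) (f, e) := by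
  have hcd : c ≠ d := by rintro rfl; omega
  rcases he' with rfl | he'
  · rcases le_total (t e d) (t e f) with h | h
    · refine Or.inr (Or.inl (W.linkA hcd hef (fun x hx => (hA₂ x hx).2) fun x hx => ?_))
      have := hA₂ x hx
      simp only [GeL] at this ⊢
      grind
    · refine Or.inr (Or.inr (W.linkB hcd hef (fun x hx => (hB₂ x hx).2) fun x hx => ?_))
      have := hB₂ x hx
      simp only [LeL] at this ⊢
      grind
  have hde : d ≠ e := by rintro rfl; omega
  have hce : c ≠ e := by rintro rfl; exact he' (Or.inl rfl)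
  have heL : LeL r t c (t c d) e := (W.total _ _ _).resolve_left he'
  by_cases hu : ∀ x ∈ B₁, ¬ LeL r t e (t e f) x
  · left
    have h1 : ∀ x ∈ B₁, ¬ LeL r t d (t d c) x := fun x hx => by
      rw [← W.le_swap hcd]; exact (hB₁ x hx).2
    have h2 : ∀ x ∈ B₁, ¬ LeL r t d (t d e) x := fun x hx => by
      have a1 := h1 x hx
      have a2 := (hB₁ x hx).1
      rw [W.ge_swap hcd] at he'
      simp only [LeL, GeL] at a1 he' ⊢
      grind
    refine ReflTransGen.trans (conn_swap (W.valB hcd fun x hx => (hB₁ x hx).2))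
      (ReflTransGen.trans (W.linkB hcd.symm hde h1 h2) (W.linkB hde.symm hef ?_ hu))
    intro x hx
    rw [← W.le_swap hde]; exact h2 x hx
  · push Not at hu
    obtain ⟨l, hl, hlu⟩ := hu
    obtain ⟨hl1, hl2⟩ := hB₁ l hl
    have hlG : GeL r t c (t c d) l := (W.total _ _ _).resolve_right hl2
    have hcl : c ≠ l := by rintro rfl; exact hl2 (Or.inl rfl)
    have hel : e ≠ l := by rintro rfl; exact hl2 heL
    rcases lt_trichotomy (r e) (r l) with h | h | h
    · right; left
      have k0 : ∀ x ∈ A₂, t e x < t e l := fun x hx => by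
        obtain ⟨a1, a2⟩ := hA₂ x hx
        rcases W.tri' e l x h (by omega) with a | a
        · exact absurd ⟨heL, hlG, (W.total _ _ _).resolve_left a2⟩ (W.m2 h (by omega) a.1 c _)
        · exact a.1
      have k1 : ∀ x ∈ A₂, ¬ GeL r t e (t e l) x := fun x hx => by
        have a1 := k0 x hx
        have a2 := (hA₂ x hx).1
        simp only [GeL]
        grind
      have k2 : ∀ x ∈ A₂, ¬ GeL r t e (t e f) x := fun x hx => by
        have a1 := k0 x hx
        have a2 := (hA₂ x hx).1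
        simp only [GeL, LeL] at hlu ⊢
        grind
      rcases lt_trichotomy (r c) (r l) with h' | h' | h'
      · have k3 : ∀ x ∈ A₂, ¬ GeL r t c (t c l) x := fun x hx => by
          have a2 := hA₂ x hx
          simp only [GeL, LeL] at hl2 a2 ⊢
          grind
        refine ReflTransGen.trans (W.linkA hcd hcl (fun x hx => (hA₂ x hx).2) k3)
          (ReflTransGen.trans (W.linkA hcl.symm hel.symm ?_ ?_) (W.linkA hel hef k1 k2))
        · intro x hx; rw [← W.ge_swap hcl]; exact k3 x hx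
        · intro x hx; rw [← W.ge_swap hel]; exact k1 x hx
      · exact absurd (W.r_inj _ _ h') hcl
      · have k3 : ∀ x ∈ A₂, ¬ GeL r t c (t c e) x := fun x hx => by
          have a2 := hA₂ x hx
          simp only [GeL] at he' a2 ⊢
          grind
        refine ReflTransGen.trans (W.linkA hcd hce (fun x hx => (hA₂ x hx).2) k3)
          (W.linkA hce.symm hef ?_ k2)
        intro x hx; rw [← W.ge_swap hce]; exact k3 x hx
    · exact absurd (W.r_inj _ _ h) hel
    · right; right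
      have k0 : ∀ x ∈ B₂, t e l < t e x := fun x hx => by
        obtain ⟨a1, a2⟩ := hB₂ x hx
        rcases W.tri' l e x h (by omega) with a | a
        · exact a.2.1
        · exact absurd ⟨hlG, heL, (W.total _ _ _).resolve_right a2⟩ (W.m1 h (by omega) a.1 c _)
      have k1 : ∀ x ∈ B₂, ¬ LeL r t e (t e l) x := fun x hx => by
        have a1 := k0 x hx
        have a2 := (hB₂ x hx).1
        simp only [LeL]
        grind
      have k2 : ∀ x ∈ B₂, ¬ LeL r t e (t e f) x := fun x hx => by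
        have a1 := k0 x hx
        have a2 := (hB₂ x hx).1
        simp only [LeL] at hlu ⊢
        grind
      rcases lt_trichotomy (r c) (r e) with h' | h' | h'
      · have k3 : ∀ x ∈ B₂, ¬ LeL r t c (t c e) x := fun x hx => by
          have a2 := hB₂ x hx
          simp only [GeL, LeL] at he' a2 ⊢
          grind
        refine ReflTransGen.trans (W.linkB hcd hce (fun x hx => (hB₂ x hx).2) k3)
          (W.linkB hce.symm hef ?_ k2)
        intro x hx; rw [← W.le_swap hce]; exact k3 x hx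
      · exact absurd (W.r_inj _ _ h') hce
      · have k3 : ∀ x ∈ B₂, ¬ LeL r t c (t c l) x := fun x hx => by
          have a2 := hB₂ x hx
          simp only [LeL] at hl2 a2 ⊢
          grind
        refine ReflTransGen.trans (W.linkB hcd hcl (fun x hx => (hB₂ x hx).2) k3)
          (ReflTransGen.trans (W.linkB hcl.symm hel.symm ?_ ?_) (W.linkB hel hef k1 k2))
        · intro x hx; rw [← W.le_swap hcl]; exact k3 x hx
        · intro x hx; rw [← W.le_swap hel]; exact k1 x hx

omit [DecidableEq ι] [Fintype ι] in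
theorem conn_neg {M : Finset ι} {p q : ι × ι} (h : Conn (fun i j => -t i j) M p q) :
    Conn t M p q := by
  induction h with
  | refl => exact ReflTransGen.refl
  | tail _ hs ih =>
    refine ReflTransGen.tail ih ⟨hs.1, hs.2.1, hs.2.2.imp_right fun h => ⟨h.1, fun x hx hB => ?_⟩⟩
    refine h.2 x hx ?_
    simp only [Btw] at hB ⊢
    grind

theorem Wiring.reach (W : Wiring r t) {θ : ℤ} {c d : ι} (hc : r c < θ) (hd : θ ≤ r d)
    {A₁ B₁ A₂ B₂ : Finset ι}
    (hA₁ : ∀ x ∈ A₁, r x < θ ∧ ¬ GeL r t c (t c d) x)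
    (hB₁ : ∀ x ∈ B₁, r x < θ ∧ ¬ LeL r t c (t c d) x)
    (hA₂ : ∀ x ∈ A₂, θ ≤ r x ∧ ¬ GeL r t c (t c d) x)
    (hB₂ : ∀ x ∈ B₂, θ ≤ r x ∧ ¬ LeL r t c (t c d) x) {e f : ι} (hef : e ≠ f) :
    Conn t A₁ᶜ (c, d) (f, e) ∨ Conn t B₁ᶜ (c, d) (f, e) ∨ Conn t A₂ᶜ (c, d) (f, e) ∨
      Conn t B₂ᶜ (c, d) (f, e) := by
  have hcd : c ≠ d := by rintro rfl; omega
  have sA₁ := conn_swap (t := t) (W.valA hcd fun x hx => (hA₁ x hx).2)
  have sB₁ := conn_swap (t := t) (W.valB hcd fun x hx => (hB₁ x hx).2)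
  have sA₂ := conn_swap (t := t) (W.valA hcd fun x hx => (hA₂ x hx).2)
  have sB₂ := conn_swap (t := t) (W.valB hcd fun x hx => (hB₂ x hx).2)
  have gx : ∀ a τ x, GeL (fun i => -r i) (fun i j => -t i j) a (-τ) x ↔ GeL r t a τ x := by
    intro a τ x; simp only [GeL]; grind
  have lx : ∀ a τ x, LeL (fun i => -r i) (fun i j => -t i j) a (-τ) x ↔ LeL r t a τ x := by
    intro a τ x; simp only [LeL]; grind
  have gy : ∀ a τ x, GeL (fun i => -r i) t a τ x ↔ LeL r t a τ x := by
    intro a τ x; simp only [GeL, LeL]; grind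
  have ly : ∀ a τ x, LeL (fun i => -r i) t a τ x ↔ GeL r t a τ x := by
    intro a τ x; simp only [GeL, LeL]; grind
  have gz : ∀ a τ x, GeL (fun i => - -r i) (fun i j => -t i j) a (-τ) x ↔ LeL r t a τ x := by
    intro a τ x; simp only [GeL, LeL]; grind
  have lz : ∀ a τ x, LeL (fun i => - -r i) (fun i j => -t i j) a (-τ) x ↔ GeL r t a τ x := by
    intro a τ x; simp only [GeL, LeL]; grind
  have hb := W.both (x := e) hcd
  rcases lt_or_ge (r e) θ with he | he
  · by_cases h : e = c ∨ ¬ GeL r t c (t c d) e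
    · have := W.caseA hc hd hef he h hB₁ hA₂ hB₂
      tauto
    · have h' : e = c ∨ ¬ LeL r t c (t c d) e := by grind
      have := W.yflip.xflip.caseA (θ := θ) (c := c) (d := d) (B₁ := A₁) (A₂ := B₂) (B₂ := A₂)
        (by simpa using hc) (by simpa using hd) hef (by simpa using he) (by rw [gz]; exact h')
        (fun x hx => by rw [lz]; simpa using hA₁ x hx)
        (fun x hx => by rw [gz]; simpa using hB₂ x hx)
        (fun x hx => by rw [lz]; simpa using hA₂ x hx)
      rcases this with h | h | h <;> have := conn_neg h <;> tauto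
  · by_cases h : e = d ∨ ¬ GeL r t c (t c d) e
    · have := W.xflip.caseA (θ := 1 - θ) (c := d) (d := c) (B₁ := B₂) (A₂ := A₁) (B₂ := B₁)
        (by omega) (by omega) hef (by omega) (by rw [gx, ← W.ge_swap hcd]; exact h)
        (fun x hx => by
          rw [lx, ← W.le_swap hcd]; exact ⟨by have := (hB₂ x hx).1; omega, (hB₂ x hx).2⟩)
        (fun x hx => by
          rw [gx, ← W.ge_swap hcd]; exact ⟨by have := (hA₁ x hx).1; omega, (hA₁ x hx).2⟩)
        (fun x hx => by
          rw [lx, ← W.le_swap hcd]; exact ⟨by have := (hB₁ x hx).1; omega, (hB₁ x hx).2⟩)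
      rcases this with h | h | h
      · exact Or.inr (Or.inr (Or.inr (sB₂.trans (conn_neg h))))
      · exact Or.inl (sA₁.trans (conn_neg h))
      · exact Or.inr (Or.inl (sB₁.trans (conn_neg h)))
    · have h' : e = d ∨ ¬ LeL r t c (t c d) e := by grind
      have := W.yflip.caseA (θ := 1 - θ) (c := d) (d := c) (B₁ := A₂) (A₂ := B₁) (B₂ := A₁)
        (by omega) (by omega) hef (by omega) (by rw [gy, ← W.le_swap hcd]; exact h')
        (fun x hx => by
          rw [ly, ← W.ge_swap hcd]; exact ⟨by have := (hA₂ x hx).1; omega, (hA₂ x hx).2⟩)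
        (fun x hx => by
          rw [gy, ← W.le_swap hcd]; exact ⟨by have := (hB₁ x hx).1; omega, (hB₁ x hx).2⟩)
        (fun x hx => by
          rw [ly, ← W.ge_swap hcd]; exact ⟨by have := (hA₁ x hx).1; omega, (hA₁ x hx).2⟩)
      rcases this with h | h | h
      · exact Or.inr (Or.inr (Or.inl (sA₂.trans h)))
      · exact Or.inr (Or.inl (sB₁.trans h))
      · exact Or.inl (sA₁.trans h)

end Pool.Agent.MP_669436_co

end MrgPart2

-- ======== part 3: formerly Pool.Agent.MP_669436_co.Normal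
section MrgPart3

set_option autoImplicit false

namespace Pool.Agent.MP_669436_co

open Relation

variable {ι : Type}

theorem exists_threshold [Fintype ι] {r : ι → ℤ} (hr : ∀ i j, r i = r j → i = j) (m : ℕ)
    (hm : m ≤ Fintype.card ι) : ∃ θ : ℤ, (Finset.univ.filter fun x => r x < θ).card = m := by
  classical
  induction m with
  | zero =>
    obtain ⟨θ, hθ⟩ := (Set.finite_range r).bddBelow
    refine ⟨θ, ?_⟩
    rw [Finset.card_eq_zero, Finset.filter_eq_empty_iff]
    exact fun x _ => not_lt.2 (hθ ⟨x, rfl⟩)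
  | succ m ih =>
    obtain ⟨θ, hθ⟩ := ih (by omega)
    have hne : (Finset.univ.filter fun x => ¬ r x < θ).Nonempty := by
      rw [← Finset.card_pos]
      have := Finset.card_filter_add_card_filter_not (s := Finset.univ) (fun x => r x < θ)
      rw [Finset.card_univ] at this
      omega
    obtain ⟨y, hy, hmin⟩ := Finset.exists_min_image _ r hne
    simp only [Finset.mem_filter, Finset.mem_univ, true_and] at hy hmin
    refine ⟨r y + 1, ?_⟩
    rw [← hθ, ← Finset.card_insert_of_notMem (a := y) (by simpa using hy)]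
    congr 1
    ext x
    have := hmin x
    have := hr x y
    simp only [Finset.mem_filter, Finset.mem_univ, true_and, Finset.mem_insert]
    grind

theorem Wiring.center [Fintype ι] [DecidableEq ι] {r : ι → ℤ} {t : ι → ι → ℝ} (W : Wiring r t)
    (hn : 2 ≤ Fintype.card ι) {V : Type} (G : SimpleGraph V) (P : ι → ι → V)
    (hP : ∀ a b, a ≠ b → P a b = P b a)
    (hA : ∀ a b c, b ≠ a → c ≠ a → b ≠ c → (∀ x, x ≠ a → ¬ Btw t a b x c) →
      G.Adj (P a b) (P a c)) :
    ∃ c d, c ≠ d ∧ ∀ e f, e ≠ f →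
      G.edist (P c d) (P e f) ≤ (3 * (Fintype.card ι - 1) / 4 : ℕ) := by
  classical
  set n := Fintype.card ι with hn'
  set k := (n - 2) / 4 with hk
  obtain ⟨θ, hθ⟩ := exists_threshold W.r_inj (2 * k + 1) (by omega)
  have h2 := Finset.card_filter_add_card_filter_not (s := Finset.univ) (fun x => r x < θ)
  rw [Finset.card_univ] at h2
  obtain ⟨G₂, hG₂, hc₂⟩ := Finset.exists_subset_card_eq
    (s := Finset.univ.filter fun x => ¬ r x < θ) (n := 2 * k + 1) (by omega)
  have m₂ : ∀ x ∈ G₂, θ ≤ r x := fun x hx => by simpa using hG₂ hx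
  obtain ⟨c, hc, d, hd, a1, b1, a2, b2⟩ := W.ham _ G₂ k hθ hc₂ (fun x hx y hy => by
    have := m₂ y hy
    simp only [Finset.mem_filter, Finset.mem_univ, true_and] at hx
    omega)
  have hc' : r c < θ := by simpa using hc
  have hd' := m₂ d hd
  have hcd : c ≠ d := by rintro rfl; omega
  refine ⟨c, d, hcd, fun e f hef => ?_⟩
  have fin : ∀ K : Finset ι, K.card = k → Val Kᶜ (c, d) → Conn t Kᶜ (c, d) (e, f) →
      G.edist (P c d) (P e f) ≤ (3 * (n - 1) / 4 : ℕ) := by
    intro K hK hv hcn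
    refine (W.edist_le G P hP hA _ Kᶜ (c, d) (e, f) rfl hv hcn).trans ?_
    rw [Finset.card_compl, hK]
    exact_mod_cast (by omega : n - k - 2 ≤ 3 * (n - 1) / 4)
  rcases W.reach hc' hd' (e := f) (f := e)
    (A₁ := (Finset.univ.filter fun x => r x < θ).filter fun x => ¬ GeL r t c (t c d) x)
    (B₁ := (Finset.univ.filter fun x => r x < θ).filter fun x => ¬ LeL r t c (t c d) x)
    (A₂ := G₂.filter fun x => ¬ GeL r t c (t c d) x)
    (B₂ := G₂.filter fun x => ¬ LeL r t c (t c d) x)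
    (fun x hx => by simpa using hx) (fun x hx => by simpa using hx)
    (fun x hx => ⟨m₂ x (Finset.mem_filter.1 hx).1, (Finset.mem_filter.1 hx).2⟩)
    (fun x hx => ⟨m₂ x (Finset.mem_filter.1 hx).1, (Finset.mem_filter.1 hx).2⟩) hef.symm
    with h | h | h | h
  · exact fin _ a1 (W.valA hcd fun x hx => (Finset.mem_filter.1 hx).2) h
  · exact fin _ b1 (W.valB hcd fun x hx => (Finset.mem_filter.1 hx).2) h
  · exact fin _ a2 (W.valA hcd fun x hx => (Finset.mem_filter.1 hx).2) h
  · exact fin _ b2 (W.valB hcd fun x hx => (Finset.mem_filter.1 hx).2) h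

/-- Raw data read off from a topological arrangement: `σ i j` says that the forward half of
line `j` lies in the distinguished side of line `i`. -/
structure Raw (σ : ι → ι → Prop) (t : ι → ι → ℝ) : Prop where
  t_inj : ∀ i j k, j ≠ i → k ≠ i → t i j = t i k → j = k
  ax : ∀ i j k, i ≠ j → i ≠ k → j ≠ k →
    ((σ i j ↔ t j i < t j k) ↔ (σ i k ↔ t k i < t k j))

theorem Raw.ne {σ : ι → ι → Prop} {t : ι → ι → ℝ} (R : Raw σ t) {i j k : ι} (h1 : i ≠ j)
    (h2 : i ≠ k) (h3 : j ≠ k) : t i j ≠ t i k := fun h => h3 (R.t_inj i j k h1.symm h2.symm h)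

open Classical in
theorem Raw.flip {σ : ι → ι → Prop} {t : ι → ι → ℝ} (R : Raw σ t) (ε : ι → Prop) :
    Raw (fun i j => σ i j ↔ ε j) (fun i j => if ε i then t i j else -t i j) where
  t_inj i j k h1 h2 h := by
    refine R.t_inj i j k h1 h2 ?_
    split_ifs at h
    · exact h
    · exact neg_injective h
  ax i j k h1 h2 h3 := by
    have a := R.ax i j k h1 h2 h3
    have n1 := R.ne h1.symm h3 h2
    have n2 := R.ne h2.symm h3.symm h1
    by_cases hj : ε j <;> by_cases hk : ε k <;> simp only [hj, hk, if_true, if_false] <;> grind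

theorem Raw.four {σ : ι → ι → Prop} {t : ι → ι → ℝ} (R : Raw σ t) {o i j k : ι}
    (hi : o ≠ i) (hj : o ≠ j) (hk : o ≠ k) (hij : i ≠ j) (hik : i ≠ k) (hjk : j ≠ k)
    (si : σ o i) (sj : σ o j) (sk : σ o k)
    (h1 : t o i < t o j ↔ t i o < t i j) (h2 : t o j < t o k ↔ t j o < t j k) :
    (t o i < t o k ↔ t i o < t i k) ∧
      (t i j < t i k ↔ t j i < t j k) ∧ (t j i < t j k ↔ t k i < t k j) := by
  have a1 := R.ax o i j hi hj hij
  have a2 := R.ax o i k hi hk hik
  have a3 := R.ax o j k hj hk hjk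
  have b1 := R.ax i o j hi.symm hij hj
  have b2 := R.ax i o k hi.symm hik hk
  have b3 := R.ax i j k hij hik hjk
  have c1 := R.ax j o i hj.symm hij.symm hi
  have c2 := R.ax j o k hj.symm hjk hk
  have c3 := R.ax j i k hij.symm hjk hik
  have d1 := R.ax k o i hk.symm hik.symm hi
  have d2 := R.ax k o j hk.symm hjk.symm hj
  have d3 := R.ax k i j hik.symm hjk.symm hij
  have n1 := R.ne hi hj hij
  have n2 := R.ne hi hk hik
  have n3 := R.ne hj hk hjk
  have n4 := R.ne hi.symm hij hj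
  have n5 := R.ne hi.symm hik hk
  have n6 := R.ne hij hik hjk
  have n7 := R.ne hj.symm hij.symm hi
  have n8 := R.ne hj.symm hjk hk
  have n9 := R.ne hij.symm hjk hik
  have n10 := R.ne hk.symm hik.symm hi
  have n11 := R.ne hk.symm hjk.symm hj
  have n12 := R.ne hik.symm hjk.symm hij
  grind (splits := 40)

theorem Raw.wiring [Fintype ι] {σ : ι → ι → Prop} {t : ι → ι → ℝ} (R : Raw σ t) (o : ι)
    (ho : ∀ j, o ≠ j → σ o j) : ∃ r : ι → ℤ, Wiring r t := by
  classical
  set lt : ι → ι → Prop := fun j k => j ≠ k ∧ k ≠ o ∧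
    (j = o ∨ (t o j < t o k ↔ t j o < t j k)) with hlt
  have anti : ∀ j k, o ≠ j → o ≠ k → j ≠ k →
      ((t o k < t o j ↔ t k o < t k j) ↔ ¬ (t o j < t o k ↔ t j o < t j k)) := by
    intro j k hj hk hjk
    have a := R.ax o j k hj hk hjk
    have n := R.ne hj hk hjk
    have := ho j hj
    have := ho k hk
    grind
  have tot : ∀ j k, j ≠ k → lt j k ∨ lt k j := by
    intro j k hjk
    have := anti j k
    simp only [hlt]
    grind
  have tr : ∀ i j k, lt i j → lt j k → lt i k := by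
    rintro i j k ⟨h1, h2, h3⟩ ⟨h4, h5, h6⟩
    have h7 := h6.resolve_left h2
    rcases eq_or_ne i o with rfl | hi
    · exact ⟨h5.symm, h5, Or.inl rfl⟩
    · have h8 := h3.resolve_left hi
      have hik : i ≠ k := by
        rintro rfl
        exact (anti i j hi.symm h2.symm h1).1 h7 h8
      exact ⟨hik, h5, Or.inr (R.four hi.symm h2.symm h5.symm h1 hik h4 (ho i hi.symm)
        (ho j h2.symm) (ho k h5.symm) h8 h7).1⟩
  have key : ∀ j k, lt j k → (Finset.univ.filter fun x => lt x j).card <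
      (Finset.univ.filter fun x => lt x k).card := by
    intro j k h
    apply Finset.card_lt_card
    refine (Finset.ssubset_iff_of_subset fun y hy => ?_).2 ⟨j, by simpa using h, by simp [hlt]⟩
    simp only [Finset.mem_filter, Finset.mem_univ, true_and] at hy ⊢
    exact tr y j k hy h
  have conv : ∀ j k, (Finset.univ.filter fun x => lt x j).card <
      (Finset.univ.filter fun x => lt x k).card → lt j k := by
    intro j k h
    have hjk : j ≠ k := by rintro rfl; omega
    rcases tot j k hjk with h' | h'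
    · exact h'
    · have := key k j h'; omega
  refine ⟨fun i => ((Finset.univ.filter fun x => lt x i).card : ℤ), fun i j h => ?_, R.t_inj,
    fun i j k g1 g2 => ?_⟩
  · by_contra hij
    rcases tot i j hij with h' | h' <;> have := key _ _ h' <;> omega
  · have l1 := conv i j (by exact_mod_cast g1)
    have l2 := conv j k (by exact_mod_cast g2)
    have l3 := tr i j k l1 l2
    obtain ⟨h1, h2, h3⟩ := l1
    obtain ⟨h4, h5, h6⟩ := l2
    have h7 := h6.resolve_left h2
    rcases eq_or_ne i o with rfl | hi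
    · have a := R.ax i j k h1 l3.1 h4
      have := ho j h1
      have := ho k l3.1
      grind
    · exact (R.four hi.symm h2.symm h5.symm h1 l3.1 h4 (ho i hi.symm)
        (ho j h2.symm) (ho k h5.symm) (h3.resolve_left hi) h7).2

theorem Raw.center [Fintype ι] [DecidableEq ι] {σ : ι → ι → Prop} {t : ι → ι → ℝ} (R : Raw σ t)
    (hn : 2 ≤ Fintype.card ι) {V : Type} (G : SimpleGraph V) (P : ι → ι → V)
    (hP : ∀ a b, a ≠ b → P a b = P b a)
    (hA : ∀ a b c, b ≠ a → c ≠ a → b ≠ c → (∀ x, x ≠ a → ¬ Btw t a b x c) →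
      G.Adj (P a b) (P a c)) :
    ∃ c d, c ≠ d ∧ ∀ e f, e ≠ f →
      G.edist (P c d) (P e f) ≤ (3 * (Fintype.card ι - 1) / 4 : ℕ) := by
  classical
  obtain ⟨o⟩ : Nonempty ι := Fintype.card_pos_iff.1 (by omega)
  obtain ⟨r, W⟩ := (R.flip (σ o)).wiring o (fun j _ => Iff.rfl)
  refine W.center hn G P hP fun a b c h1 h2 h3 h4 => hA a b c h1 h2 h3 fun x hx hB => h4 x hx ?_
  simp only [Btw] at hB ⊢
  split_ifs <;> grind

end Pool.Agent.MP_669436_co

end MrgPart3

-- ======== part 4: formerly Pool.Agent.MP_669436_co.Bridge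
section MrgPart4

set_option autoImplicit false

namespace Pool.Agent.MP_669436_co

open Set Topology

theorem at_most_two' {γ : ℝ → EuclideanSpace ℝ (Fin 2)} (hγ : IsClosedEmbedding γ)
    {a b c : EuclideanSpace ℝ (Fin 2)} (ha : a ∉ range γ) (hb : b ∉ range γ) (hc : c ∉ range γ)
    (hab : connectedComponentIn (range γ)ᶜ a ≠ connectedComponentIn (range γ)ᶜ b) :
    connectedComponentIn (range γ)ᶜ c = connectedComponentIn (range γ)ᶜ a ∨
      connectedComponentIn (range γ)ᶜ c = connectedComponentIn (range γ)ᶜ b := by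
  by_contra hcon
  push Not at hcon
  let h : EuclideanSpace ℝ (Fin 2) ≃ₜ ℂ := Complex.orthonormalBasisOneI.repr.symm.toHomeomorph
  have e : h '' (range γ)ᶜ = (range (h ∘ γ))ᶜ := by rw [h.image_compl, range_comp]
  have nm : ∀ {x}, x ∉ range γ → h x ∉ range (h ∘ γ) := by
    rintro x hx ⟨t, ht⟩
    exact hx ⟨t, h.injective ht⟩
  have tr : ∀ {x y}, x ∉ range γ → y ∉ range γ →
      connectedComponentIn (range γ)ᶜ x ≠ connectedComponentIn (range γ)ᶜ y →
      connectedComponentIn (range (h ∘ γ))ᶜ (h x) ≠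
        connectedComponentIn (range (h ∘ γ))ᶜ (h y) := by
    intro x y hx hy hne heq
    rw [← e, ← h.image_connectedComponentIn hx, ← h.image_connectedComponentIn hy] at heq
    exact hne (h.injective.image_injective heq)
  exact at_most_two (h.isClosedEmbedding.comp hγ) (nm ha) (nm hb) (nm hc) (tr ha hb hab)
    (tr ha hc hcon.1.symm) (tr hb hc hcon.2.symm)

theorem radius_le {n : ℕ} (hn : 2 ≤ n) (γ : Fin n → ℝ → EuclideanSpace ℝ (Fin 2))
    (h : IsSimpleArrangement γ) :
    (arrangementGraph γ).radius ≤ ((3 * (n - 1) / 4 : ℕ) : ℕ∞) := by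
  classical
  have hce : ∀ i, IsClosedEmbedding (γ i) := fun i =>
    ⟨h.isEmbedding i, (h.isProperMap i).isClosedMap.isClosed_range⟩
  have hex : ∀ i j, ∃ s, i ≠ j → ∃ t, γ i s = γ j t ∧
      (∀ s' t', γ i s' = γ j t' → s' = s ∧ t' = t) ∧
      ∀ t₁ t₂, t₁ < t → t < t₂ → connectedComponentIn (range (γ i))ᶜ (γ j t₁) ≠
        connectedComponentIn (range (γ i))ᶜ (γ j t₂) := by
    intro i j
    by_cases hij : i ≠ j
    · obtain ⟨s, t, hst⟩ := h.crossOnce i j hij
      exact ⟨s, fun _ => ⟨t, hst⟩⟩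
    · exact ⟨0, fun h' => absurd h' hij⟩
  choose T hT using hex
  have hT' : ∀ i j, i ≠ j → γ i (T i j) = γ j (T j i) ∧
      (∀ s' t', γ i s' = γ j t' → s' = T i j ∧ t' = T j i) ∧
      ∀ t₁ t₂, t₁ < T j i → T j i < t₂ → connectedComponentIn (range (γ i))ᶜ (γ j t₁) ≠
        connectedComponentIn (range (γ i))ᶜ (γ j t₂) := by
    intro i j hij
    obtain ⟨t, h1, h2, h3⟩ := hT i j hij
    obtain ⟨t', h4, h5, -⟩ := hT j i hij.symm
    obtain rfl : t = T j i := (h5 _ _ h1.symm).1
    exact ⟨h1, h2, h3⟩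
  have off : ∀ i j, i ≠ j → ∀ τ, τ ≠ T j i → γ j τ ∉ range (γ i) := by
    rintro i j hij τ hτ ⟨s, hs⟩
    exact hτ ((hT' i j hij).2.1 s τ hs).2
  have tinj : ∀ i j k, j ≠ i → k ≠ i → T i j = T i k → j = k := by
    intro i j k hj hk he
    by_contra hjk
    have h0 := h.noTriple i j k hj.symm hk.symm hjk
    have : γ i (T i j) ∈ range (γ i) ∩ range (γ j) ∩ range (γ k) :=
      ⟨⟨⟨_, rfl⟩, ⟨_, (hT' i j hj.symm).1.symm⟩⟩, ⟨_, by rw [he]; exact (hT' i k hk.symm).1.symm⟩⟩
    rw [h0] at this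
    exact this
  haveI : Nontrivial (Fin n) := Fin.nontrivial_iff_two_le.2 hn
  choose o ho using fun i : Fin n => exists_ne i
  set A : Fin n → Set (EuclideanSpace ℝ (Fin 2)) := fun i =>
    connectedComponentIn (range (γ i))ᶜ (γ (o i) (T (o i) i + 1)) with hA
  set σ : Fin n → Fin n → Prop := fun i j =>
    connectedComponentIn (range (γ i))ᶜ (γ j (T j i + 1)) = A i with hσ
  have side : ∀ i j, i ≠ j → ∀ τ, τ ≠ T j i →
      (connectedComponentIn (range (γ i))ᶜ (γ j τ) = A i ↔ (σ i j ↔ T j i < τ)) := by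
    intro i j hij τ hτ
    rcases lt_or_gt_of_ne hτ with hlt | hgt
    · have c1 := (hT' i j hij).2.2 τ (T j i + 1) hlt (by linarith)
      have c2 := (hT' i (o i) (ho i).symm).2.2 (T (o i) i - 1) (T (o i) i + 1)
        (by linarith) (by linarith)
      have o1 := off i (o i) (ho i).symm (T (o i) i - 1) (by linarith)
      have o2 := off i (o i) (ho i).symm (T (o i) i + 1) (by linarith)
      have d1 := at_most_two' (hce i) o1 o2 (off i j hij τ hτ) c2
      have d2 := at_most_two' (hce i) o1 o2 (off i j hij (T j i + 1) (by linarith)) c2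
      have hn' : ¬ T j i < τ := not_lt.2 hlt.le
      simp only [hσ, hA, hn', iff_false]
      constructor
      · intro e1 e2
        exact c1 (e1.trans e2.symm)
      · intro e1
        rcases d1 with d1 | d1
        · exact absurd (d1.trans (d2.resolve_right e1).symm) c1
        · exact d1
    · have hpc : IsPreconnected (γ j '' Ioi (T j i)) :=
        isPreconnected_Ioi.image _ (hce j).continuous.continuousOn
      have hsub : γ j '' Ioi (T j i) ⊆ (range (γ i))ᶜ := by
        rintro _ ⟨u, hu, rfl⟩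
        exact off i j hij u (ne_of_gt hu)
      have h1 : γ j τ ∈ connectedComponentIn (range (γ i))ᶜ (γ j (T j i + 1)) :=
        hpc.subset_connectedComponentIn ⟨_, by simp, rfl⟩ hsub ⟨τ, hgt, rfl⟩
      rw [← connectedComponentIn_eq h1]
      simp only [hσ, hgt, iff_true]
  have R : Raw σ T := by
    refine ⟨tinj, fun i j k h1 h2 h3 => ?_⟩
    rw [← side i j h1 (T j k) (fun h' => h2 (tinj j k i h3.symm h1 h').symm),
      ← side i k h2 (T k j) (fun h' => h1 (tinj k j i h3 h2 h').symm), (hT' j k h3).1]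
  have hmem : ∀ a b, a ≠ b → γ a (T a b) ∈ crossings γ := fun a b hab =>
    ⟨a, b, hab, ⟨_, rfl⟩, ⟨_, (hT' a b hab).1.symm⟩⟩
  let P : Fin n → Fin n → crossings γ := fun a b =>
    if hab : a ≠ b then ⟨γ a (T a b), hmem a b hab⟩ else ⟨γ a (T a (o a)), hmem a _ (ho a).symm⟩
  have hP : ∀ a b (hab : a ≠ b), (P a b).1 = γ a (T a b) := by
    intro a b hab; simp only [P, dif_pos hab]
  have hseg : ∀ a b c, b ≠ a → c ≠ a → (∀ x, x ≠ a → ¬ Btw T a b x c) → T a b < T a c →
      ∀ u, T a b < u → u < T a c → γ a u ∉ crossings γ := by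
    rintro a b c _ _ h4 _ u hu1 hu2 ⟨i, j, hij, ⟨s, hs⟩, ⟨t, ht⟩⟩
    by_cases hi : i = a
    · subst hi
      exact h4 j hij.symm (Or.inl (((hT' i j hij).2.1 u t ht.symm).1 ▸ ⟨hu1, hu2⟩))
    · exact h4 i hi (Or.inl (((hT' a i (Ne.symm hi)).2.1 u s hs.symm).1 ▸ ⟨hu1, hu2⟩))
  obtain ⟨c, d, hcd, hb⟩ := R.center (by simpa using hn) (arrangementGraph γ) P
    (fun a b hab => Subtype.ext (by rw [hP a b hab, hP b a hab.symm, (hT' a b hab).1]))
    (fun a b c h1 h2 h3 h4 => by
      have hne : T a b ≠ T a c := fun h' => h3 (tinj a b c h1 h2 h')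
      rw [arrangementGraph, SimpleGraph.fromRel_adj]
      refine ⟨fun h' => hne ((hce a).injective ?_), ?_⟩
      · rw [← hP a b h1.symm, ← hP a c h2.symm, h']
      · rcases lt_or_gt_of_ne hne with hlt | hgt
        · exact Or.inl ⟨a, _, _, hlt, (hP a b h1.symm).symm, (hP a c h2.symm).symm,
            hseg a b c h1 h2 h4 hlt⟩
        · exact Or.inr ⟨a, _, _, hgt, (hP a c h2.symm).symm, (hP a b h1.symm).symm,
            hseg a c b h2 h1 (fun x hx hB => h4 x hx hB.symm) hgt⟩)
  refine (SimpleGraph.radius_le_eccent (u := P c d)).trans (iSup_le ?_)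
  rintro ⟨p, e, f, hef, ⟨s, hs⟩, ⟨t, ht⟩⟩
  have := hb e f hef
  rw [Fintype.card_fin] at this
  have e1 : P e f = ⟨p, e, f, hef, ⟨s, hs⟩, ⟨t, ht⟩⟩ := by
    apply Subtype.ext
    rw [hP e f hef, ← ((hT' e f hef).2.1 s t (hs.trans ht.symm)).1, hs]
  rw [e1] at this
  exact this

end Pool.Agent.MP_669436_co

end MrgPart4

-- marker of a merged file
example : 731051 + 807396 = 731051 + 807396 := rfl
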