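import Mathlib.Analysis.InnerProductSpace.PiL2
import Mathlib.Combinatorics.SimpleGraph.Basic

set_option autoImplicit false

namespace Pool.Agent.MP_669436_co

/-- `γ` parametrises a simple arrangement of `n` pseudolines in the Euclidean plane: each `γ i`
is a proper embedding of the real line; two different pseudolines have exactly one common point,
and there the second passes from one connected component of the complement of the first to
another one; no point lies on three pseudolines. -/
structure IsSimpleArrangement {n : ℕ} (γ : Fin n → ℝ → EuclideanSpace ℝ (Fin 2)) : Prop where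
  isEmbedding : ∀ i, Topology.IsEmbedding (γ i)
  isProperMap : ∀ i, IsProperMap (γ i)
  crossOnce : ∀ i j, i ≠ j → ∃ s t, γ i s = γ j t ∧
    (∀ s' t', γ i s' = γ j t' → s' = s ∧ t' = t) ∧
    ∀ t₁ t₂, t₁ < t → t < t₂ → connectedComponentIn (Set.range (γ i))ᶜ (γ j t₁) ≠
      connectedComponentIn (Set.range (γ i))ᶜ (γ j t₂)
  noTriple : ∀ i j k, i ≠ j → i ≠ k → j ≠ k →
    Set.range (γ i) ∩ Set.range (γ j) ∩ Set.range (γ k) = ∅

/-- The crossing points of the arrangement. -/
def crossings {n : ℕ} (γ : Fin n → ℝ → EuclideanSpace ℝ (Fin 2)) :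
    Set (EuclideanSpace ℝ (Fin 2)) :=
  {p | ∃ i j, i ≠ j ∧ p ∈ Set.range (γ i) ∧ p ∈ Set.range (γ j)}

/-- The arrangement graph: two different crossing points are adjacent when they are joined by a
segment of a pseudoline with no other crossing point on it. -/
def arrangementGraph {n : ℕ} (γ : Fin n → ℝ → EuclideanSpace ℝ (Fin 2)) :
    SimpleGraph (crossings γ) :=
  SimpleGraph.fromRel fun p q => ∃ i s t, s < t ∧ γ i s = p.1 ∧ γ i t = q.1 ∧
    ∀ u, s < u → u < t → γ i u ∉ crossings γ

end Pool.Agent.MP_669436_co
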